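import Pool.Agent.Q14.TG.Pi

/-! Finite trees of (virtually) fibered groups with infinite virtually cyclic edge groups which are
virtual retracts of the vertex groups are virtually fibered. -/

set_option autoImplicit false

namespace Pool.Agent.Results.MP_64528c_al.TreesOfVirtuallyFiberedGroups

open Pool.Agent.Q14.TG

/-- Let a finite tree of groups be given: vertex set `V`, edge set `E`, end points `o e ≠ t e` of
the edge `e` such that there are no multiple edges and the resulting graph on `V` is a tree, vertex
groups `A v`, edge groups `B e` with injective homomorphisms `i e`, `j e` into the groups of the two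
end points. If every vertex group is virtually fibered, every edge group is infinite virtually
cyclic, and the images of the edge groups are virtual retracts of the vertex groups, then the
fundamental group `Pi1 i j` of the tree of groups is virtually fibered. -/
theorem result {V E : Type} [Finite V] [Finite E] {o t : E → V} (hloop : ∀ e, o e ≠ t e)
    (hmult : ∀ e e', s(o e, t e) = s(o e', t e') → e = e') (htree : (graph o t).IsTree)
    {A : V → Type} [∀ v, Group (A v)] {B : E → Type} [∀ e, Group (B e)]
    (i : ∀ e, B e →* A (o e)) (j : ∀ e, B e →* A (t e))
    (hi : ∀ e, Function.Injective (i e)) (hj : ∀ e, Function.Injective (j e))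
    (hA : ∀ v, VirtuallyFibered (A v)) (hB : ∀ e, InfiniteVirtuallyCyclic (B e))
    (hri : ∀ e, IsVirtualRetract (i e).range) (hrj : ∀ e, IsVirtualRetract (j e).range) :
    VirtuallyFibered (Pi1 i j) := by
  refine pi1_fibered hloop hmult htree i j hi hj (fun v => ?_) hB hri hrj
  obtain ⟨K, hK, φ, hφ, hfg⟩ := hA v
  refine of_fibered K hK φ ?_ hfg
  rintro rfl
  obtain ⟨x, hx⟩ := hφ (Multiplicative.ofAdd 1)
  rw [MonoidHom.one_apply] at hx
  exact absurd hx (by decide)

end Pool.Agent.Results.MP_64528c_al.TreesOfVirtuallyFiberedGroups
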